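import Pool.Agent.helper29.RS.SpecK
import Pool.Agent.helper62.QU.All

/-!
# Project RS, row NRF: finite multiplicity
-/

set_option autoImplicit false

open scoped MatrixGroups ContDiff Topology UpperHalfPlane ComplexConjugate Pointwise
open UpperHalfPlane MeasureTheory Filter Set

namespace Pool.Agent.RS

noncomputable section

section fin

variable {α : Type} [MeasurableSpace α] (μ : Measure α) (E : Submodule ℂ (α → ℂ))
  (hm : ∀ v ∈ E, MemLp v 2 μ)

/-- the map to `L²` -/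
def NRF_T : E →ₗ[ℂ] Lp ℂ 2 μ where
  toFun v := (hm v.1 v.2).toLp v.1
  map_add' u v := MemLp.toLp_add (hm u.1 u.2) (hm v.1 v.2)
  map_smul' c v := MemLp.toLp_const_smul c (hm v.1 v.2)

theorem NRF_T_norm (v : E) : ‖NRF_T μ E hm v‖ ^ 2 = ∫ z, ‖v.1 z‖ ^ 2 ∂μ := by
  have h := L2.inner_def (𝕜 := ℂ) (NRF_T μ E hm v) (NRF_T μ E hm v)
  rw [inner_self_eq_norm_sq_to_K] at h
  have h2 : ∫ a, inner ℂ ((NRF_T μ E hm v : Lp ℂ 2 μ) a) ((NRF_T μ E hm v : Lp ℂ 2 μ) a) ∂μ =
      ∫ a, ((‖v.1 a‖ ^ 2 : ℝ) : ℂ) ∂μ := by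
    refine integral_congr_ae ?_
    filter_upwards [MemLp.coeFn_toLp (hm v.1 v.2)] with a ha
    have e : (NRF_T μ E hm v : Lp ℂ 2 μ) a = v.1 a := ha
    rw [e, inner_self_eq_norm_sq_to_K]
    push_cast
    rfl
  rw [h2, integral_complex_ofReal] at h
  have h3 : ((‖NRF_T μ E hm v‖ ^ 2 : ℝ) : ℂ) = ((∫ a, ‖v.1 a‖ ^ 2 ∂μ : ℝ) : ℂ) := by
    rw [← h]
    push_cast
    rfl
  exact_mod_cast h3

include hm in
theorem NRF_fin [IsFiniteMeasure μ] (C : ℝ) (hC : 0 ≤ C)
    (hb : ∀ v ∈ E, ∀ z, ‖v z‖ ^ 2 ≤ C * ∫ z, ‖v z‖ ^ 2 ∂μ) : FiniteDimensional ℂ E := by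
  have hinj : Function.Injective (NRF_T μ E hm) := by
    rw [injective_iff_map_eq_zero]
    intro v hv
    ext z
    have h1 := hb v.1 v.2 z
    rw [← NRF_T_norm μ E hm v, hv, norm_zero] at h1
    have h2 : ‖v.1 z‖ ^ 2 ≤ 0 := by simpa using h1
    have h3 : ‖v.1 z‖ = 0 := by
      have := sq_nonneg ‖v.1 z‖
      exact pow_eq_zero_iff (two_ne_zero) |>.1 (le_antisymm h2 this)
    exact norm_eq_zero.1 h3
  obtain ⟨n, hn⟩ := exists_nat_ge (C * μ.real univ)
  have hr : Module.rank ℂ E ≤ n := by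
    apply rank_le
    intro s hs
    set V : Submodule ℂ (Lp ℂ 2 μ) := (Submodule.span ℂ (s : Set E)).map (NRF_T μ E hm) with hV
    have : FiniteDimensional ℂ (Submodule.span ℂ (s : Set E)) :=
      FiniteDimensional.span_finset ℂ s
    have hVf : FiniteDimensional ℂ V := by
      rw [hV]
      infer_instance
    have hcard : Module.finrank ℂ V = s.card := by
      rw [hV, ← LinearEquiv.finrank_eq (Submodule.equivMapOfInjective (NRF_T μ E hm) hinj
        (Submodule.span ℂ (s : Set E)))]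
      exact finrank_span_finset_eq_card hs
    set b := stdOrthonormalBasis ℂ V with hb'
    have hv : ∀ i, ∃ v : E, NRF_T μ E hm v = (b i : Lp ℂ 2 μ) := by
      intro i
      obtain ⟨v, -, hv⟩ := (b i).2
      exact ⟨v, hv⟩
    choose v hv using hv
    have hon : Orthonormal ℂ fun i => NRF_T μ E hm (v i) := by
      have h := b.orthonormal.comp_linearIsometry V.subtypeₗᵢ
      have e : (fun i => NRF_T μ E hm (v i)) = ⇑V.subtypeₗᵢ ∘ ⇑b := by
        funext i
        exact hv i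
      rw [e]
      exact h
    have key : ∀ z, ∑ i, ‖(v i).1 z‖ ^ 2 ≤ C := by
      intro z
      set S := ∑ i, ‖(v i).1 z‖ ^ 2 with hS
      have hS0 : 0 ≤ S := Finset.sum_nonneg fun i _ => sq_nonneg _
      set u : E := ∑ i, (conj ((v i).1 z)) • v i with hu
      have hcz : ∀ c : ℂ, conj c * c = ((‖c‖ ^ 2 : ℝ) : ℂ) := by
        intro c
        rw [mul_comm, Complex.mul_conj, Complex.normSq_eq_norm_sq]
      have h1 : u.1 z = (S : ℂ) := by
        have e : u.1 = ∑ i, (conj ((v i).1 z)) • (v i).1 := by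
          rw [hu]
          simp only [Submodule.coe_sum, Submodule.coe_smul]
        rw [e, Finset.sum_apply, hS]
        push_cast
        refine Finset.sum_congr rfl fun i _ => ?_
        rw [Pi.smul_apply, smul_eq_mul, hcz]
        push_cast
        rfl
      have h2 : ‖NRF_T μ E hm u‖ ^ 2 = S := by
        have h3 := hon.inner_sum (fun i => conj ((v i).1 z)) (fun i => conj ((v i).1 z)) Finset.univ
        have e : NRF_T μ E hm u = ∑ i, (conj ((v i).1 z)) • NRF_T μ E hm (v i) := by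
          rw [hu, map_sum]
          refine Finset.sum_congr rfl fun i _ => ?_
          rw [map_smul]
        rw [← e, inner_self_eq_norm_sq_to_K] at h3
        have h4 : ((‖NRF_T μ E hm u‖ ^ 2 : ℝ) : ℂ) = (S : ℂ) := by
          rw [hS]
          push_cast
          refine Eq.trans h3 (Finset.sum_congr rfl fun i _ => ?_)
          rw [hcz]
          push_cast
          rw [RCLike.norm_conj]
        exact_mod_cast h4
      have h5 := hb u.1 u.2 z
      rw [← NRF_T_norm μ E hm u, h2, h1, Complex.norm_real, Real.norm_eq_abs, sq_abs] at h5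
      rcases hS0.eq_or_lt with h6 | h6
      · rw [← h6]
        exact hC
      · nlinarith
    have hint : ∀ i, Integrable (fun z => ‖(v i).1 z‖ ^ 2) μ := fun i => (hm _ (v i).2).integrable_norm_pow two_ne_zero
    have h1 : ∫ z, ∑ i, ‖(v i).1 z‖ ^ 2 ∂μ = s.card := by
      rw [integral_finsetSum _ fun i _ => hint i]
      rw [Finset.sum_congr rfl fun i _ => (NRF_T_norm μ E hm (v i)).symm]
      rw [Finset.sum_congr rfl fun i _ => by rw [hon.1 i, one_pow]]
      rw [Finset.sum_const, Finset.card_univ, Fintype.card_fin, hcard]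
      simp
    have h2 : ∫ z, ∑ i, ‖(v i).1 z‖ ^ 2 ∂μ ≤ ∫ _z, C ∂μ :=
      integral_mono (integrable_finsetSum _ fun i _ => hint i) (integrable_const C) key
    rw [h1, integral_const, smul_eq_mul, mul_comm] at h2
    exact_mod_cast h2.trans hn
  have hlt : Module.rank ℂ E < Cardinal.aleph0 := lt_of_le_of_lt hr (Cardinal.natCast_lt_aleph0)
  exact Module.rank_lt_aleph0_iff.1 hlt

end fin

/-- Cauchy-Schwarz -/
theorem NRF_cs {α : Type} [MeasurableSpace α] (μ : Measure α) [IsFiniteMeasure μ] (f : α → ℝ)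
    (h1 : Integrable f μ) (h2 : Integrable (fun x => f x ^ 2) μ) :
    (∫ x, f x ∂μ) ^ 2 ≤ (μ.real univ + 1) * ∫ x, f x ^ 2 ∂μ := by
  set m := μ.real univ with hm
  set I := ∫ x, f x ∂μ with hI
  set J := ∫ x, f x ^ 2 ∂μ with hJ
  have hm0 : 0 ≤ m := measureReal_nonneg
  have key : ∀ a : ℝ, 0 ≤ J - 2 * a * I + a ^ 2 * m := by
    intro a
    have h : ∫ x, (f x - a) ^ 2 ∂μ = J - 2 * a * I + a ^ 2 * m := by
      have e : (fun x => (f x - a) ^ 2) = fun x => (f x ^ 2 - (2 * a) * f x) + a ^ 2 := by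
        funext x
        ring
      have h3 : Integrable (fun x => f x ^ 2 - (2 * a) * f x) μ := h2.sub (h1.const_mul _)
      rw [e, integral_add h3 (integrable_const _),
        integral_sub h2 (h1.const_mul _), integral_const_mul, integral_const, smul_eq_mul]
      ring
    rw [← h]
    exact integral_nonneg fun x => sq_nonneg _
  have h := key (I / (m + 1))
  have hp : 0 < m + 1 := by linarith
  have e : J - 2 * (I / (m + 1)) * I + (I / (m + 1)) ^ 2 * m =
      J - I ^ 2 / (m + 1) - I ^ 2 / (m + 1) ^ 2 := by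
    field_simp
    ring
  rw [e] at h
  have h3 : 0 ≤ I ^ 2 / (m + 1) ^ 2 := by positivity
  have h4 : I ^ 2 / (m + 1) ≤ J := by linarith
  rw [div_le_iff₀ hp] at h4
  linarith

/-- invariant functions: comparison of the integral over a compact set with the integral over `F` -/
theorem NRF_cmp (Γ : Subgroup SL(2, ℝ)) (F B : Set ℍ) (hΓ : QU.SurfaceGroup Γ)
    (hF : QU.NiceDom Γ F) (hB : IsCompact B) :
    ∃ N : ℝ, 0 ≤ N ∧ ∀ f : ℍ → ℝ, Continuous f → (∀ (γ : Γ) z, f (γ • z) = f z) →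
      (∀ z, 0 ≤ f z) → ∫ z in B, f z ≤ N * ∫ z in F, f z := by
  classical
  obtain ⟨hcount, hfd, -, -, -, hfin⟩ := QU.A_DOB Γ F hΓ hF
  have := hcount
  have : SMulInvariantMeasure Γ ℍ (volume : Measure ℍ) := QU.A_INV.2.1 Γ
  have : MeasurableConstSMul Γ ℍ := ⟨fun γ => by
    have : Continuous fun z : ℍ => γ • z := continuous_const_smul γ
    exact this.measurable⟩
  obtain ⟨KF, hKF, hFK⟩ := hF.rel
  have hS := hfin B KF hB hKF
  refine ⟨(hS.toFinset.card : ℝ), Nat.cast_nonneg _, fun f hf hinv h0 => ?_⟩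
  have hfi : IntegrableOn f F := (hf.continuousOn.integrableOn_compact hKF).mono_set hFK
  have h1 : ∫⁻ z in B, ENNReal.ofReal (f z) ≤
      (hS.toFinset.card : ENNReal) * ∫⁻ z in F, ENNReal.ofReal (f z) := by
    rw [hfd.setLIntegral_eq_tsum' (fun z => ENNReal.ofReal (f z)) B]
    rw [tsum_eq_sum (s := hS.toFinset)]
    · have h2 : ∀ g ∈ hS.toFinset, ∫⁻ x in g • B ∩ F, ENNReal.ofReal (f (g⁻¹ • x)) ≤
          ∫⁻ z in F, ENNReal.ofReal (f z) := by
        intro g _
        simp only [hinv]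
        exact lintegral_mono_set inter_subset_right
      refine (Finset.sum_le_sum h2).trans ?_
      rw [Finset.sum_const, nsmul_eq_mul]
    · intro g hg
      have he : g • B ∩ F = ∅ := by
        rw [eq_empty_iff_forall_notMem]
        rintro x ⟨⟨y, hy, rfl⟩, hx⟩
        apply hg
        rw [Set.Finite.mem_toFinset]
        exact ⟨y, hy, hFK hx⟩
      rw [he, Measure.restrict_empty, lintegral_zero_measure]
  have hm : Measurable f := hf.measurable
  rw [integral_eq_lintegral_of_nonneg_ae (Eventually.of_forall h0) hm.aestronglyMeasurable,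
    integral_eq_lintegral_of_nonneg_ae (Eventually.of_forall h0) hm.aestronglyMeasurable]
  have hfin2 : ∫⁻ z in F, ENNReal.ofReal (f z) ≠ ⊤ := by
    have h3 := hfi.hasFiniteIntegral
    rw [hasFiniteIntegral_iff_ofReal (Eventually.of_forall h0)] at h3
    exact h3.ne
  have h4 := ENNReal.toReal_mono (ENNReal.mul_ne_top (ENNReal.natCast_ne_top _) hfin2) h1
  rwa [ENNReal.toReal_mul, ENNReal.toReal_natCast] at h4

theorem NRF_sup (Γ : Subgroup SL(2, ℝ)) (F : Set ℍ) (K : ℍ → ℍ → ℝ) (q : ℝ)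
    (hΓ : QU.SurfaceGroup Γ) (hF : QU.NiceDom Γ F) (hK : QU.PKer Γ K) (hq : q ≠ 0) :
    ∃ C : ℝ, 0 ≤ C ∧ ∀ v : ℍ → ℂ, InvC Γ v → (∀ z, kop K v z = (q : ℂ) * v z) →
      ∀ z, ‖v z‖ ^ 2 ≤ C * ∫ z in F, ‖v z‖ ^ 2 := by
  obtain ⟨K0, hK0, hcov⟩ := hΓ.cocompact
  obtain ⟨R, hR⟩ := hK.prop
  have hB : IsCompact (Metric.cthickening R K0) := hK0.cthickening
  set B := Metric.cthickening R K0 with hBdef
  obtain ⟨M, hM⟩ := (hK0.prod hB).exists_bound_of_continuousOn hK.cont.continuousOn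
  obtain ⟨N, hN0, hN⟩ := NRF_cmp Γ F B hΓ hF hB
  have : IsFiniteMeasure ((volume : Measure ℍ).restrict B) :=
    ⟨by rw [Measure.restrict_apply_univ]; exact hB.measure_lt_top⟩
  set m := ((volume : Measure ℍ).restrict B).real univ with hm
  have hm0 : 0 ≤ m := measureReal_nonneg
  refine ⟨M ^ 2 * (m + 1) * N / q ^ 2, by positivity, ?_⟩
  intro v hv hkv
  have hcont : Continuous fun z => ‖v z‖ := hv.1.norm
  have hi1 : Integrable (fun z => ‖v z‖) ((volume : Measure ℍ).restrict B) :=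
    hcont.continuousOn.integrableOn_compact hB
  have hi2 : Integrable (fun z => ‖v z‖ ^ 2) ((volume : Measure ℍ).restrict B) :=
    (hcont.pow 2).continuousOn.integrableOn_compact hB
  have hcs := NRF_cs ((volume : Measure ℍ).restrict B) (fun z => ‖v z‖) hi1 hi2
  have hNv := hN (fun z => ‖v z‖ ^ 2) (hcont.pow 2) (fun γ z => by rw [hv.2]) (fun z => sq_nonneg _)
  have hz0 : ∀ z ∈ K0, ‖v z‖ ^ 2 ≤ M ^ 2 * (m + 1) * N / q ^ 2 * ∫ z in F, ‖v z‖ ^ 2 := by
    intro z hz
    have h1 : kop K v z = ∫ w in B, ((K z w : ℝ) : ℂ) * v w := by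
      unfold kop
      refine (setIntegral_eq_integral_of_forall_compl_eq_zero ?_).symm
      intro w hw
      by_contra hne
      apply hw
      have h2 : K z w ≠ 0 := by
        intro h0
        apply hne
        rw [h0]
        simp
      refine Metric.mem_cthickening_of_dist_le w z R K0 hz ?_
      rw [dist_comm]
      exact hR z w h2
    have h2 : ‖kop K v z‖ ≤ M * ∫ w in B, ‖v w‖ := by
      rw [h1, ← integral_const_mul]
      refine norm_integral_le_of_norm_le (hi1.const_mul M) ?_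
      refine ae_restrict_of_forall_mem hB.measurableSet ?_
      intro w hw
      rw [norm_mul, Complex.norm_real]
      exact mul_le_mul_of_nonneg_right (hM (z, w) ⟨hz, hw⟩) (norm_nonneg _)
    have h3 : ‖kop K v z‖ ^ 2 ≤ M ^ 2 * (∫ w in B, ‖v w‖) ^ 2 := by
      rw [← mul_pow]
      exact pow_le_pow_left₀ (norm_nonneg _) h2 2
    have h4 : ‖kop K v z‖ ^ 2 = q ^ 2 * ‖v z‖ ^ 2 := by
      rw [hkv z, norm_mul, Complex.norm_real, mul_pow, Real.norm_eq_abs, sq_abs]
    have h5 : q ^ 2 * ‖v z‖ ^ 2 ≤ M ^ 2 * ((m + 1) * (N * ∫ z in F, ‖v z‖ ^ 2)) := by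
      rw [← h4]
      refine h3.trans (mul_le_mul_of_nonneg_left ?_ (sq_nonneg M))
      refine hcs.trans (mul_le_mul_of_nonneg_left hNv (by positivity))
    have hq2 : 0 < q ^ 2 := by positivity
    have e : M ^ 2 * (m + 1) * N / q ^ 2 * ∫ z in F, ‖v z‖ ^ 2 =
        M ^ 2 * ((m + 1) * (N * ∫ z in F, ‖v z‖ ^ 2)) / q ^ 2 := by ring
    rw [e, le_div_iff₀ hq2, mul_comm]
    exact h5
  intro z
  obtain ⟨γ, hγ⟩ := hcov z
  have h := hz0 _ hγ
  rwa [hv.2] at h

theorem NRF_int (Γ : Subgroup SL(2, ℝ)) (K : ℍ → ℍ → ℝ) (hK : QU.PKer Γ K) (u : ℍ → ℂ)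
    (hu : Continuous u) (z : ℍ) : Integrable (fun w : ℍ => ((K z w : ℝ) : ℂ) * u w) := by
  obtain ⟨R, hR⟩ := hK.prop
  refine Continuous.integrable_of_hasCompactSupport ?_ ?_
  · have h1 : Continuous fun w : ℍ => K z w := hK.cont.comp (Continuous.prodMk_right z)
    exact (Complex.continuous_ofReal.comp h1).mul hu
  · refine HasCompactSupport.intro (isCompact_closedBall z R) ?_
    intro w hw
    by_contra hne
    apply hw
    rw [Metric.mem_closedBall, dist_comm]
    apply hR z w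
    intro h0
    apply hne
    rw [h0]
    simp

/-- the eigenspace -/
def NRF_E (Γ : Subgroup SL(2, ℝ)) (K : ℍ → ℍ → ℝ) (hK : QU.PKer Γ K) (q : ℝ) :
    Submodule ℂ (ℍ → ℂ) where
  carrier := {v | InvC Γ v ∧ ∀ z, kop K v z = (q : ℂ) * v z}
  add_mem' := by
    rintro u v ⟨hu1, hu2⟩ ⟨hv1, hv2⟩
    refine ⟨⟨hu1.1.add hv1.1, fun γ z => ?_⟩, fun z => ?_⟩
    · simp only [Pi.add_apply]
      rw [hu1.2, hv1.2]
    · have e : kop K (u + v) z = kop K u z + kop K v z := by
        unfold kop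
        rw [← integral_add (NRF_int Γ K hK u hu1.1 z) (NRF_int Γ K hK v hv1.1 z)]
        refine integral_congr_ae (Eventually.of_forall fun w => ?_)
        simp only [Pi.add_apply]
        ring
      rw [e, hu2, hv2, Pi.add_apply]
      ring
  zero_mem' := by
    refine ⟨⟨continuous_const, fun γ z => rfl⟩, fun z => ?_⟩
    unfold kop
    simp
  smul_mem' := by
    rintro c u ⟨hu1, hu2⟩
    refine ⟨⟨hu1.1.const_smul c, fun γ z => ?_⟩, fun z => ?_⟩
    · simp only [Pi.smul_apply]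
      rw [hu1.2]
    · have e : kop K (c • u) z = c * kop K u z := by
        unfold kop
        rw [← integral_const_mul]
        refine integral_congr_ae (Eventually.of_forall fun w => ?_)
        simp only [Pi.smul_apply, smul_eq_mul]
        ring
      rw [e, hu2, Pi.smul_apply, smul_eq_mul]
      ring

theorem NRF : NRF_stmt := by
  intro Γ F K q hΓ hF hK hq
  obtain ⟨-, -, -, hfin, -, -⟩ := QU.A_DOB Γ F hΓ hF
  obtain ⟨KF, hKF, hFK⟩ := hF.rel
  have : IsFiniteMeasure ((volume : Measure ℍ).restrict F) :=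
    ⟨by rw [Measure.restrict_apply_univ]; exact hfin⟩
  obtain ⟨C, hC, hsup⟩ := NRF_sup Γ F K q hΓ hF hK hq
  refine ⟨NRF_E Γ K hK q, ?_, fun v => Iff.rfl⟩
  refine NRF_fin ((volume : Measure ℍ).restrict F) (NRF_E Γ K hK q) ?_ C hC ?_
  · rintro v ⟨hv1, -⟩
    obtain ⟨m, hm⟩ := hKF.exists_bound_of_continuousOn hv1.1.continuousOn
    exact MemLp.of_bound hv1.1.measurable.aestronglyMeasurable m
      (ae_restrict_of_forall_mem hF.meas fun z hz => hm z (hFK hz))
  · rintro v ⟨hv1, hv2⟩ z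
    exact hsup v hv1 hv2 z

end

end Pool.Agent.RS
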